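import Pool.Agent.Y879.GL.QuadU

set_option autoImplicit false

/-!
# Almost prime values of quadratic polynomials: the law of the gaps, uniformly in the coefficients

Call `m` good if `a m ^ 2 + b m + c` has no prime factor up to `X ^ (1 / r)`, let `V` be the product of
`1 - ρ(p) / p` over the primes `p ≤ X ^ (1 / r)`. In EVERY interval `(u, u + Y]` with `Y ≥ X ^ θ` (there
is no bound for `u`), the distances of the good integers to the `k`-th good integer before them are
distributed as in a Poisson process of the density `V`, with a relative error `ε`, uniformly for all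
admissible triples with coefficients up to ANY fixed power of `X` for which `V` has the usual order of
magnitude. The law for the next good integer (`k = 1`) holds for all distances `T` at once.

This is the final theorem `Pool.Agent.Y879.GL.quad_unif` of the starting library; none of the starting
hand-ins states it.
-/

namespace Pool.Agent.Results.MP_a1177c_nt.GapLawUniform

open Finset Filter

/-- The value `a m ^ 2 + b m + c` is not divisible by any prime up to `X ^ (1 / r)`. -/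
def Good (a b c : ℤ) (r X m : ℕ) : Prop :=
  ∀ p : ℕ, p.Prime → (p : ℝ) ≤ (X : ℝ) ^ (1 / (r : ℝ)) → ¬ (p : ℤ) ∣ a * (m : ℤ) ^ 2 + b * m + c

open Classical in
/-- The number of the good `n` in `(u, u + Y]` with fewer than `k` good integers in `[n - T, n)`. -/
noncomputable def G (a b c : ℤ) (r X k T u Y : ℕ) : ℕ :=
  ((Finset.Ioc u (u + Y)).filter (fun n => Good a b c r X n ∧
    ((Finset.Ico (n - T) n).filter (fun m => Good a b c r X m)).card < k)).card

open Classical in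
/-- The sieve density: the product of `1 - ρ(p) / p` over the primes `p ≤ X ^ (1 / r)`, where `ρ(p)` is
the number of the `m` mod `p` with `p ∣ a m ^ 2 + b m + c`. -/
noncomputable def V (a b c : ℤ) (r X : ℕ) : ℝ :=
  ∏ p ∈ (Finset.range (⌊(X : ℝ) ^ (1 / (r : ℝ))⌋₊ + 1)).filter Nat.Prime,
    (1 - (((Finset.range p).filter
      (fun m : ℕ => (p : ℤ) ∣ a * (m : ℤ) ^ 2 + b * m + c)).card : ℝ) / p)

/-- The product of `1 - 1 / p` over the primes `p ≤ X ^ (1 / r)`. -/
noncomputable def V1 (r X : ℕ) : ℝ :=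
  ∏ p ∈ (Finset.range (⌊(X : ℝ) ^ (1 / (r : ℝ))⌋₊ + 1)).filter Nat.Prime, (1 - 1 / (p : ℝ))

open Pool.Agent.TH464.PO Pool.Agent.W123.RU.Poly Pool.Agent.W123.RP Pool.Agent.H373R2.T7

lemma good_iff (a b c : ℤ) (r X m : ℕ) :
    Sf (Q (qs a b c)) ⌊(X : ℝ) ^ (1 / (r : ℝ))⌋₊ m ↔ Good a b c r X m := by
  have h0 : (0 : ℝ) ≤ (X : ℝ) ^ (1 / (r : ℝ)) := by positivity
  constructor
  · intro h p hp hpX hd
    exact h p (mem_pz.2 ⟨Nat.le_floor hpX, hp⟩) ((qs_Q a b c p m).2 hd)
  · intro h p hp hd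
    obtain ⟨h1, h2⟩ := mem_pz.1 hp
    exact h p h2 ((Nat.le_floor_iff h0).1 h1) ((qs_Q a b c p m).1 hd)

lemma V1_eq (r X : ℕ) : Vz ⌊(X : ℝ) ^ (1 / (r : ℝ))⌋₊ = V1 r X := by
  unfold Vz V1
  apply Finset.prod_congr _ (fun _ _ => rfl)
  unfold pz
  ext p
  simp only [mem_filter, mem_Icc, mem_range]
  constructor
  · rintro ⟨h1, h2⟩
    exact ⟨by omega, h2⟩
  · rintro ⟨h1, h2⟩
    exact ⟨⟨h2.one_lt.le, by omega⟩, h2⟩

open Classical in
/-- **The gap laws for the almost prime values of quadratic polynomials, uniformly in the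
coefficients.** For all `A`, `θ > 0`, `k0`, `x0` and `ε > 0` there is `r0` such that for all `r ≥ r0`,
all `B` and all large `X` the following holds for all admissible triples `(a, b, c)` with
`|a|, |b|, |c| ≤ X ^ A` and `V ≤ B V1`, for all `u` and all `Y ≥ X ^ θ`, and for all `k`, `T` with
`k ≤ k0` or `T V ≤ x0`: the number of the good `n` in `(u, u + Y]` with fewer than `k` good integers
among the `T` integers before `n` is `Y V ∑_{j < k} e ^ (-T V) (T V) ^ j / j!` up to at most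
`ε Y V`. -/
theorem result (A : ℕ) (θ : ℝ) (hθ : 0 < θ) (k0 : ℕ) (x0 ε : ℝ) (hε : 0 < ε) :
    ∃ r0 : ℕ, ∀ r : ℕ, r0 ≤ r → ∀ B : ℝ, ∀ᶠ X : ℕ in atTop, ∀ a b c : ℤ, 0 < a →
      (∀ p : ℕ, p.Prime → ¬ ((p : ℤ) ∣ a ∧ (p : ℤ) ∣ b ∧ (p : ℤ) ∣ c)) →
      ¬ (Even (a + b) ∧ Even c) → ¬ IsSquare (b ^ 2 - 4 * a * c) →
      |a| ≤ (X : ℤ) ^ A → |b| ≤ (X : ℤ) ^ A → |c| ≤ (X : ℤ) ^ A →
      V a b c r X ≤ B * V1 r X →
      ∀ u Y : ℕ, (X : ℝ) ^ θ ≤ Y → ∀ k T : ℕ, (k ≤ k0 ∨ T * V a b c r X ≤ x0) →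
        |(G a b c r X k T u Y : ℝ) - Y * V a b c r X *
          ∑ j ∈ Finset.range k, Real.exp (-(T * V a b c r X)) * (T * V a b c r X) ^ j / j.factorial| ≤
        ε * (Y * V a b c r X) := by
  obtain ⟨r0, h0⟩ := Pool.Agent.Y879.GL.quad_unif A θ hθ k0 x0 ε hε
  refine ⟨r0, ?_⟩
  intro r hr B
  filter_upwards [h0 r hr B] with X hX
  intro a b c ha hg hpar hD haX hbX hcX hVB u Y hY k T hkT
  have hV : Vq (Q (qs a b c)) ⌊(X : ℝ) ^ (1 / (r : ℝ))⌋₊ = V a b c r X := qs_V a b c _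
  have h1 := hX a b c ha hg hpar hD haX hbX hcX (by rw [hV, V1_eq]; exact hVB) u Y hY k T
    (by rw [hV]; exact hkT)
  rw [hV] at h1
  have hG : Pk (Sf (Q (qs a b c)) ⌊(X : ℝ) ^ (1 / (r : ℝ))⌋₊) k T u Y = G a b c r X k T u Y := by
    unfold Pk G
    simp only [good_iff]
  rw [hG] at h1
  exact h1

end Pool.Agent.Results.MP_a1177c_nt.GapLawUniform
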