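import Pool.Agent.V1137.Pm2

/-!
For fixed `a > 0` and `b` and for most `c` for which `(a, b, c)` is admissible, the polynomial
`a m ^ 2 + b m + c` has many prime values at integers `m = 6 p + v`, `0 ≤ v ≤ 5`, with `p` a prime
which is isolated: there is no other prime at distance at most `Λ log p` from `p`.
-/

set_option autoImplicit false

open Finset Filter Topology

namespace Pool.Agent.Results.MP_a1177c_nt.IsolatedPrimeArguments

/-- There is no prime `q ≠ p` with `|q - p| ≤ Λ log p`. -/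
def Isolated (Λ : ℝ) (p : ℕ) : Prop :=
  ∀ q : ℕ, q.Prime → |(q : ℝ) - p| ≤ Λ * Real.log p → q = p

/-- `gcd(a, b, c) = 1`, and `a + b` and `c` are not both even. -/
def Admissible (a b c : ℤ) : Prop :=
  Int.gcd a (Int.gcd b c) = 1 ∧ ¬ (Even (a + b) ∧ Even c)

open Classical in
/-- The isolated primes `p ≤ x` for which `a m ^ 2 + b m + c` is prime, `m = 6 p + v`. -/
noncomputable def arguments (a b c : ℤ) (Λ : ℝ) (v x : ℕ) : Finset ℕ :=
  (Icc 1 x).filter (fun p => p.Prime ∧ Isolated Λ p ∧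
    (a * ((6 * p + v : ℕ) : ℤ) ^ 2 + b * ((6 * p + v : ℕ) : ℤ) + c).toNat.Prime)

open Classical in
/-- The `1 ≤ c ≤ K x ^ 2` with `(a, b, c)` admissible and fewer than `δ x / (log x) ^ 2` arguments for
each `0 ≤ v ≤ 5`. -/
noncomputable def exceptions (a b : ℤ) (Λ δ : ℝ) (K x : ℕ) : Finset ℕ :=
  (Icc 1 (K * x ^ 2)).filter (fun c => Admissible a b c ∧
    ∀ v < 6, ((arguments a b c Λ v x).card : ℝ) < δ * (x / Real.log x ^ 2))

open Polynomial in
/-- the polynomial `a (6 X + v) ^ 2 + b (6 X + v)` without its constant term -/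
noncomputable def gv (a b : ℤ) (v : ℕ) : ℤ[X] :=
  C (36 * a) * X ^ 2 + C (12 * a * v + 6 * b) * X + C 0

lemma gv_eval (a b : ℤ) (v : ℕ) (n : ℤ) :
    (gv a b v).eval n = 36 * a * n ^ 2 + (12 * a * v + 6 * b) * n := by
  unfold gv
  simp only [Polynomial.eval_add, Polynomial.eval_mul, Polynomial.eval_C, Polynomial.eval_pow,
    Polynomial.eval_X]
  ring

lemma gv_deg (a b : ℤ) (v : ℕ) (ha : 0 < a) : (gv a b v).natDegree = 2 := by
  unfold gv
  apply Polynomial.natDegree_quadratic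
  positivity

lemma gv_lead (a b : ℤ) (v : ℕ) (ha : 0 < a) : 0 < (gv a b v).leadingCoeff := by
  unfold gv
  rw [Polynomial.leadingCoeff_quadratic (by positivity)]
  positivity

lemma not_all (a b c : ℤ) (h : Int.gcd a (Int.gcd b c) = 1) (l : ℕ) (hl : l.Prime)
    (h1 : (l : ℤ) ∣ a) (h2 : (l : ℤ) ∣ b) (h3 : (l : ℤ) ∣ c) : False := by
  have h4 : (l : ℤ) ∣ (Int.gcd b c : ℤ) := Int.dvd_coe_gcd h2 h3
  have h5 : (l : ℤ) ∣ (Int.gcd a (Int.gcd b c) : ℤ) := Int.dvd_coe_gcd h1 h4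
  rw [h] at h5
  have h6 := Int.le_of_dvd (by norm_num) h5
  have := hl.two_le
  norm_num at h6
  omega

/-- the residue class modulo `6` for a given constant term -/
lemma exists_class (a b c : ℤ) (h : Admissible a b c) : ∃ v : ℕ, v < 6 ∧
    ¬ (2 : ℤ) ∣ a * (v : ℤ) ^ 2 + b * v + c ∧ ¬ (3 : ℤ) ∣ a * (v : ℤ) ^ 2 + b * v + c := by
  obtain ⟨hg, hpar⟩ := h
  have h2 : ¬ (2 : ℤ) ∣ c ∨ ¬ (2 : ℤ) ∣ a + b + c := by
    by_contra hcon
    push Not at hcon
    apply hpar
    obtain ⟨h3, h4⟩ := hcon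
    constructor
    · rw [Int.even_iff]
      omega
    · rw [Int.even_iff]
      omega
  have h3 : ¬ (3 : ℤ) ∣ c ∨ ¬ (3 : ℤ) ∣ a + b + c ∨ ¬ (3 : ℤ) ∣ 4 * a + 2 * b + c := by
    by_contra hcon
    push Not at hcon
    obtain ⟨h4, h5, h6⟩ := hcon
    exact not_all a b c hg 3 Nat.prime_three (by push_cast; omega) (by push_cast; omega)
      (by push_cast; omega)
  rcases h2 with h2 | h2 <;> rcases h3 with h3 | h3 | h3
  · exact ⟨0, by norm_num, by push_cast; omega, by push_cast; omega⟩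
  · exact ⟨4, by norm_num, by push_cast; omega, by push_cast; omega⟩
  · exact ⟨2, by norm_num, by push_cast; omega, by push_cast; omega⟩
  · exact ⟨3, by norm_num, by push_cast; omega, by push_cast; omega⟩
  · exact ⟨1, by norm_num, by push_cast; omega, by push_cast; omega⟩
  · exact ⟨5, by norm_num, by push_cast; omega, by push_cast; omega⟩

open Pool.Agent.V1137.Unav in
lemma loc (a b c : ℤ) (h : Admissible a b c) (v k : ℕ)
    (h2 : ¬ (2 : ℤ) ∣ a * (v : ℤ) ^ 2 + b * v + c) (h3 : ¬ (3 : ℤ) ∣ a * (v : ℤ) ^ 2 + b * v + c)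
    (hk : (k : ℤ) = a * (v : ℤ) ^ 2 + b * v + c) : Loc1 1 (gv a b v) k := by
  have key : ∀ y : ℤ, (k : ℤ) + 1 * (gv a b v).eval y =
      a * (6 * y + v) ^ 2 + b * (6 * y + v) + c := by
    intro y
    rw [gv_eval, hk]
    ring
  intro l hl
  by_cases hl2 : l = 2
  · subst hl2
    refine ⟨1, by norm_num, fun hd => h2 ?_⟩
    rw [key] at hd
    have e1 : a * (6 * 1 + v) ^ 2 + b * (6 * 1 + v) + c =
        a * (v : ℤ) ^ 2 + b * v + c + 2 * (18 * a + 6 * a * v + 3 * b) := by ring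
    rw [e1] at hd
    exact (Int.dvd_add_left (Dvd.intro _ rfl)).1 hd
  by_cases hl3 : l = 3
  · subst hl3
    refine ⟨1, by norm_num, fun hd => h3 ?_⟩
    rw [key] at hd
    have e1 : a * (6 * 1 + v) ^ 2 + b * (6 * 1 + v) + c =
        a * (v : ℤ) ^ 2 + b * v + c + 3 * (12 * a + 4 * a * v + 2 * b) := by ring
    rw [e1] at hd
    exact (Int.dvd_add_left (Dvd.intro _ rfl)).1 hd
  have hl5 : 5 ≤ l := by
    have := hl.two_le
    by_contra hc
    have : l = 4 := by omega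
    subst this
    exact absurd hl (by norm_num)
  have hlp : Prime (l : ℤ) := Nat.prime_iff_prime_int.1 hl
  have hnd : ∀ n : ℕ, 0 < n → n < 5 → ¬ (l : ℤ) ∣ (n : ℤ) := by
    intro n hn hn5 hd
    have := Nat.le_of_dvd hn (by exact_mod_cast hd)
    omega
  by_contra hcon
  push Not at hcon
  have e1 := hcon 1 (by simpa using hnd 1 (by norm_num) (by norm_num))
  have e2 := hcon 2 (by simpa using hnd 2 (by norm_num) (by norm_num))
  have e3 := hcon 3 (by simpa using hnd 3 (by norm_num) (by norm_num))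
  rw [key] at e1 e2 e3
  have hl6 : ∀ z : ℤ, (l : ℤ) ∣ 72 * z → (l : ℤ) ∣ z := by
    intro z hz
    rcases hlp.dvd_or_dvd hz with h5 | h5
    · exfalso
      have h6 : (l : ℤ) ∣ ((2 ^ 3 * 3 ^ 2 : ℕ) : ℤ) := by
        have : ((2 ^ 3 * 3 ^ 2 : ℕ) : ℤ) = 72 := by norm_num
        rwa [this]
      have h7 : l ∣ 2 ^ 3 * 3 ^ 2 := by exact_mod_cast h6
      rcases (Nat.Prime.dvd_mul hl).1 h7 with h8 | h8
      · exact hl2 ((Nat.prime_dvd_prime_iff_eq hl Nat.prime_two).1 (hl.dvd_of_dvd_pow h8))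
      · exact hl3 ((Nat.prime_dvd_prime_iff_eq hl Nat.prime_three).1 (hl.dvd_of_dvd_pow h8))
    · exact h5
  have ha : (l : ℤ) ∣ a := by
    apply hl6
    have h5 := (e3.sub e2).sub (e2.sub e1)
    have h6 : a * (6 * 3 + v) ^ 2 + b * (6 * 3 + v) + c - (a * (6 * 2 + v) ^ 2 + b * (6 * 2 + v) + c) -
        (a * (6 * 2 + v) ^ 2 + b * (6 * 2 + v) + c - (a * (6 * 1 + v) ^ 2 + b * (6 * 1 + v) + c)) =
        72 * a := by ring
    rwa [h6] at h5
  have hb : (l : ℤ) ∣ b := by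
    apply hl6
    have h5 := e2.sub e1
    have h6 : a * (6 * 2 + v) ^ 2 + b * (6 * 2 + v) + c - (a * (6 * 1 + v) ^ 2 + b * (6 * 1 + v) + c) =
        a * (108 + 12 * v) + 6 * b := by ring
    rw [h6] at h5
    have h7 := (h5.sub (ha.mul_right (108 + 12 * (v : ℤ)))).mul_left 12
    have h8 : 12 * (a * (108 + 12 * (v : ℤ)) + 6 * b - a * (108 + 12 * v)) = 72 * b := by ring
    rwa [h8] at h7
  have hc : (l : ℤ) ∣ c := by
    have h5 := (e1.sub (ha.mul_right ((6 * 1 + (v : ℤ)) ^ 2))).sub (hb.mul_right (6 * 1 + (v : ℤ)))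
    have h6 : a * (6 * 1 + (v : ℤ)) ^ 2 + b * (6 * 1 + v) + c - a * (6 * 1 + v) ^ 2 - b * (6 * 1 + v) =
        c := by ring
    rwa [h6] at h5
  exact not_all a b c h.1 l hl ha hb hc

open Pool.Agent.V1137.Unav in
/-- **Prime values of quadratic polynomials at arguments coming from isolated primes.** For all
integers `a > 0` and `b`, all `Λ > 0`, `K` and `κ > 0` there is `δ > 0` such that for all large `x`
and all integers `1 ≤ c ≤ K x ^ 2` with `(a, b, c)` admissible, with at most `κ x ^ 2` exceptions,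
there is `v ∈ {0, ..., 5}` such that for at least `δ x / (log x) ^ 2` primes `p ≤ x` the number
`a m ^ 2 + b m + c`, `m = 6 p + v`, is prime and there is no prime `q ≠ p` with
`|q - p| ≤ Λ log p`. -/
theorem result (a b : ℤ) (ha : 0 < a) (Λ : ℝ) (hΛ : 0 < Λ) (K : ℕ) (κ : ℝ) (hκ : 0 < κ) :
    ∃ δ : ℝ, 0 < δ ∧ ∀ᶠ x : ℕ in atTop,
      ((exceptions a b Λ δ K x).card : ℝ) ≤ κ * (x : ℝ) ^ 2 := by
  classical
  set Bad : ℕ → ℝ → ℕ → Finset ℕ := fun v c x => (Icc 1 ((K + 1) * x ^ 2)).filter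
        (fun k => Loc1 1 (gv a b v) k ∧ ((Arg1 (isolated Λ) 1 (gv a b v) x k).card : ℝ) <
          c * (x / Real.log x ^ 2)) with hBad
  obtain ⟨c, hc, x₀, h⟩ := common (range 6)
    (fun v c x => ((Bad v c x).card : ℝ) ≤ κ / 7 * (x : ℝ) ^ 2) (by
      intro v c c' x hcc h
      refine le_trans ?_ h
      apply Nat.cast_le.2
      apply card_le_card
      intro k hk
      rw [hBad] at hk ⊢
      simp only at hk ⊢
      rw [mem_filter] at hk ⊢
      refine ⟨hk.1, hk.2.1, lt_of_lt_of_le hk.2.2 ?_⟩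
      apply mul_le_mul_of_nonneg_right hcc
      positivity) (by
      intro v _
      obtain ⟨c, hc, x₀, h⟩ := one_pm 1 (Or.inl rfl) (gv a b v) (by rw [gv_deg a b v ha]; norm_num)
        (gv_lead a b v ha) (isolated Λ) (isolated_most Λ hΛ) (K + 1) (κ / 7) (by positivity)
      refine ⟨c, hc, x₀, fun x hx => ?_⟩
      have h3 := h x hx
      rw [gv_deg a b v ha] at h3
      exact h3)
  refine ⟨c, hc, ?_⟩
  set C0 : ℕ := 25 * a.natAbs + 5 * b.natAbs + 1 with hC0
  rw [eventually_atTop]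
  refine ⟨max x₀ (⌈7 * C0 / κ⌉₊ + C0 + 1), fun x hx => ?_⟩
  have hx0 : x₀ ≤ x := (le_max_left _ _).trans hx
  have hx1 : ⌈7 * C0 / κ⌉₊ + C0 + 1 ≤ x := (le_max_right _ _).trans hx
  have hb := h x hx0
  have hC0x : C0 ≤ x ^ 2 := by
    calc C0 ≤ x := by omega
      _ ≤ x ^ 2 := by nlinarith
  have hsub : exceptions a b Λ c K x ⊆ Icc 1 C0 ∪ (range 6).biUnion (fun v =>
      (Bad v c x).image (fun k : ℕ => ((k : ℤ) - (a * (v : ℤ) ^ 2 + b * v)).toNat)) := by
    intro c' hc'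
    unfold exceptions at hc'
    rw [mem_filter, mem_Icc] at hc'
    obtain ⟨⟨hc1, hc2⟩, hadm, hno⟩ := hc'
    rw [mem_union]
    by_cases hsm : c' ≤ C0
    · left
      rw [mem_Icc]
      exact ⟨hc1, hsm⟩
    right
    push Not at hsm
    obtain ⟨v, hv6, hv2, hv3⟩ := exists_class a b c' hadm
    have hv5 : (v : ℤ) ≤ 5 := by omega
    have hv0 : (0 : ℤ) ≤ v := Int.natCast_nonneg v
    have hav : 0 ≤ a * (v : ℤ) ^ 2 := by positivity
    have hv25 : (v : ℤ) ^ 2 ≤ 25 := by nlinarith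
    have hav2 : a * (v : ℤ) ^ 2 ≤ 25 * a := by
      have := mul_le_mul_of_nonneg_left hv25 ha.le
      linarith
    have hbv : |b * (v : ℤ)| ≤ 5 * |b| := by
      rw [abs_mul, abs_of_nonneg hv0]
      nlinarith [abs_nonneg b]
    have hbv' := abs_le.1 hbv
    have hC0z : (C0 : ℤ) = 25 * a + 5 * |b| + 1 := by
      rw [hC0]
      push_cast
      rw [abs_of_pos ha]
    have hsmz : (C0 : ℤ) < c' := by exact_mod_cast hsm
    have hkpos : 0 < a * (v : ℤ) ^ 2 + b * v + c' := by linarith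
    obtain ⟨k, hk⟩ : ∃ k : ℕ, (k : ℤ) = a * (v : ℤ) ^ 2 + b * v + c' :=
      ⟨(a * (v : ℤ) ^ 2 + b * v + c').toNat, Int.toNat_of_nonneg hkpos.le⟩
    rw [mem_biUnion]
    refine ⟨v, mem_range.2 hv6, ?_⟩
    rw [mem_image]
    refine ⟨k, ?_, ?_⟩
    · change k ∈ (Icc 1 ((K + 1) * x ^ 2)).filter
        (fun k => Loc1 1 (gv a b v) k ∧ ((Arg1 (isolated Λ) 1 (gv a b v) x k).card : ℝ) <
          c * (x / Real.log x ^ 2))
      rw [mem_filter, mem_Icc]
      refine ⟨⟨by omega, ?_⟩, loc a b c' hadm v k hv2 hv3 hk, ?_⟩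
      · have e1 : (k : ℤ) ≤ ((K + 1) * x ^ 2 : ℕ) := by
          have e2 : (c' : ℤ) ≤ ((K * x ^ 2 : ℕ) : ℤ) := by exact_mod_cast hc2
          have e3 : (C0 : ℤ) ≤ ((x ^ 2 : ℕ) : ℤ) := by exact_mod_cast hC0x
          push_cast at e2 e3 ⊢
          nlinarith
        exact_mod_cast e1
      · refine lt_of_le_of_lt ?_ (hno v hv6)
        apply Nat.cast_le.2
        apply card_le_card
        intro n hn
        unfold Arg1 at hn
        unfold arguments
        rw [mem_filter] at hn ⊢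
        refine ⟨hn.1, hn.2.1, hn.2.2.1, ?_⟩
        have h4 := hn.2.2.2
        rw [gv_eval, hk] at h4
        have e1 : a * (v : ℤ) ^ 2 + b * v + c' + 1 * (36 * a * (n : ℤ) ^ 2 + (12 * a * v + 6 * b) * n) =
            a * ((6 * n + v : ℕ) : ℤ) ^ 2 + b * ((6 * n + v : ℕ) : ℤ) + c' := by
          push_cast
          ring
        rwa [e1] at h4
    · rw [hk]
      have e1 : a * (v : ℤ) ^ 2 + b * v + c' - (a * (v : ℤ) ^ 2 + b * v) = c' := by ring
      rw [e1]
      exact Int.toNat_natCast c'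
  have h1 := (card_le_card hsub).trans (card_union_le _ _)
  rw [Nat.card_Icc, Nat.add_sub_cancel] at h1
  have h2 : (((range 6).biUnion (fun v =>
      (Bad v c x).image (fun k : ℕ => ((k : ℤ) - (a * (v : ℤ) ^ 2 + b * v)).toNat))).card : ℝ) ≤
      6 * (κ / 7 * (x : ℝ) ^ 2) := by
    calc _ ≤ ((∑ v ∈ range 6, ((Bad v c x).image
          (fun k : ℕ => ((k : ℤ) - (a * (v : ℤ) ^ 2 + b * v)).toNat)).card : ℕ) : ℝ) := by
          exact_mod_cast card_biUnion_le
      _ = ∑ v ∈ range 6, (((Bad v c x).image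
          (fun k : ℕ => ((k : ℤ) - (a * (v : ℤ) ^ 2 + b * v)).toNat)).card : ℝ) := by
          push_cast; rfl
      _ ≤ ∑ _v ∈ range 6, (κ / 7 * (x : ℝ) ^ 2) := by
          apply sum_le_sum
          intro i hi
          refine le_trans ?_ (hb i hi)
          exact_mod_cast card_image_le
      _ = 6 * (κ / 7 * (x : ℝ) ^ 2) := by
          rw [sum_const, card_range, nsmul_eq_mul]
          norm_num
  have h3 : ((exceptions a b Λ c K x).card : ℝ) ≤ C0 +
      (((range 6).biUnion (fun v =>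
      (Bad v c x).image (fun k : ℕ => ((k : ℤ) - (a * (v : ℤ) ^ 2 + b * v)).toNat))).card : ℝ) := by
    exact_mod_cast h1
  have h4 : (C0 : ℝ) ≤ κ / 7 * (x : ℝ) ^ 2 := by
    have e1 : 7 * C0 / κ ≤ x := by
      have : (⌈7 * C0 / κ⌉₊ : ℝ) ≤ x := by
        have : ⌈7 * C0 / κ⌉₊ ≤ x := by omega
        exact_mod_cast this
      exact (Nat.le_ceil _).trans this
    rw [div_le_iff₀ hκ] at e1
    have e2 : (1 : ℝ) ≤ x := by
      have : 1 ≤ x := by omega
      exact_mod_cast this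
    nlinarith
  linarith

end Pool.Agent.Results.MP_a1177c_nt.IsolatedPrimeArguments
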