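import Pool.Agent.V11296.CR2

/-!
Quadratic polynomials `f(n) = A n^2 + B n + C` with a discriminant of class number one: every pattern
of the prime factors of a squarefree value which is given by a completely additive function `H` with
values in a finite abelian group, determined by residue classes of prime elements, with `2 H(p)`
constant, recurs for at least `X / (log X)^(log 2 + ε)` of the integers `n ≤ X`.

For example `H(N)` may consist of the number of prime factors of `N` modulo `k` and of the parities of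
the numbers of its prime factors in all residue classes modulo `m`. Starting files have the parity of
the number of prime factors in one set of classes (`PrimeClassParities` of MP_f1a94e_nt,
`PrimeClassParitiesLogTwo` of MP_d639b3_nt), and the number of prime factors modulo `k`
(`SquarefreeCubanLogTwo` of MP_22d6bb_nt, `SquarefreeEulerLogTwo` of MP_8be758_nt), for a few
polynomials. The cancellation theorems `W251.EG.tsG`, `W251.EG.apdE` and the passage from pairs to
integers `TH890.DV.pnL` used here are those of the starting files.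
-/

set_option autoImplicit false

namespace Pool.Agent.Results.MP_a1177c_nt.RecurringPatterns

open Finset Filter

open scoped Classical in
/-- the set of the positive integers `X` with `P X` has logarithmic density `0` -/
def LogNull (P : ℕ → Prop) : Prop :=
  Tendsto (fun Z : ℕ => (∑ X ∈ (Icc 1 Z).filter P, 1 / (X : ℝ)) / Real.log Z) atTop (nhds 0)

/-- the nine pairs `(t, c)` with `t` in `{0, 1}` and `x^2+tx+c` of discriminant `-4`, `-8`, `-3`,
`-7`, `-11`, `-19`, `-43`, `-67`, `-163` -/
def nine : List (ℕ × ℕ) :=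
  [(0, 1), (0, 2), (1, 1), (1, 2), (1, 3), (1, 5), (1, 11), (1, 17), (1, 41)]

/-- `H` maps products to sums, `2 H(p) = τ` for all primes `p`, `E` is periodic modulo `m` in both
variables, and `H p = E x y` whenever `p = x^2+txy+cy^2` is a prime not dividing `m` -/
structure Determined {G : Type} [AddCommGroup G] (t c m : ℕ) (E : ℤ → ℤ → G) (τ : G)
    (H : ℕ → G) : Prop where
  pos : 1 ≤ m
  add : ∀ x y : ℕ, x ≠ 0 → y ≠ 0 → H (x * y) = H x + H y
  two : ∀ p : ℕ, p.Prime → H p + H p = τ
  per : ∀ x y u v : ℤ, x ≡ u [ZMOD m] → y ≡ v [ZMOD m] → E x y = E u v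
  val : ∀ (x y : ℤ) (p : ℕ), p.Prime → ¬ p ∣ m → x ^ 2 + t * x * y + c * y ^ 2 = p → H p = E x y

open scoped Classical in
/-- the number of the integers `0 ≤ n ≤ X`, `n ≡ n₀ mod q`, for which `A n^2 + B n + C` is
squarefree and `H(A n^2 + B n + C) = g` -/
noncomputable def count {G : Type} (A B C q n₀ : ℕ) (H : ℕ → G) (g : G) (X : ℕ) : ℕ :=
  ((range (X + 1)).filter (fun n : ℕ => n ≡ n₀ [MOD q] ∧
    Squarefree (A * n ^ 2 + B * n + C) ∧ H (A * n ^ 2 + B * n + C) = g)).card

/-- Let `f(n) = A n^2 + B n + C`, `A ≥ 1`, `B, C ≥ 0`, have discriminant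
`B^2 - 4AC = t^2 - 4c` equal to one of `-3`, `-4`, `-7`, `-8`, `-11`, `-19`, `-43`, `-67`, `-163`.
Let `H` be completely additive with values in a finite abelian group, with `2 H(p)` the same for all
primes `p`, and `H(p)` determined by the residue class modulo `m` of a prime element of norm `p`, for
`p ∤ m`. Let `A f(n₀)` be squarefree. Then for every modulus `q`, every `ε > 0` and all `X` outside
a set of logarithmic density `0` at least `X / (log X)^(log 2 + ε)` of the `n ≤ X`, `n ≡ n₀ mod q`,
have `f(n)` squarefree and `H(f(n)) = H(f(n₀))`; and for every `δ > 0` and all large `X` there are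
at least `X^(1 - δ)` such `n`. -/
theorem result (t c : ℕ) (htc : (t, c) ∈ nine) (A B C : ℕ) (hA : 1 ≤ A)
    (hD : B ^ 2 + 4 * c = t ^ 2 + 4 * A * C) (G : Type) [AddCommGroup G] [Finite G] (m : ℕ)
    (E : ℤ → ℤ → G) (τ : G) (H : ℕ → G) (hH : Determined t c m E τ H) (q n₀ : ℕ) (hq : 1 ≤ q)
    (hsf : Squarefree (A * (A * n₀ ^ 2 + B * n₀ + C))) :
    (∀ ε : ℝ, 0 < ε → LogNull (fun X =>
      (count A B C q n₀ H (H (A * n₀ ^ 2 + B * n₀ + C)) X : ℝ) <
        X / Real.log X ^ (Real.log 2 + ε))) ∧
    ∀ δ : ℝ, 0 < δ → ∃ X₀ : ℕ, ∀ X : ℕ, X₀ ≤ X →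
      (X : ℝ) ^ (1 - δ) ≤ count A B C q n₀ H (H (A * n₀ ^ 2 + B * n₀ + C)) X := by
  obtain ⟨_, χ, hF⟩ := Pool.Agent.W251.EG.fd9 t c htc
  have hS := Pool.Agent.W251.EG.sps9 t c htc
  have h : Pool.Agent.V11296.CV.Gv t c m E τ H := ⟨hH.pos, hH.add, hH.two, hH.per, hH.val⟩
  exact Pool.Agent.V11296.CR.recur hF hS h A B C hA hD q n₀ hq hsf

end Pool.Agent.Results.MP_a1177c_nt.RecurringPatterns
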