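import Pool.Agent.V11249.NP.Uni

/-!
# Arithmetic progressions of arguments with prime values of quadratic polynomials, uniformly

For all admissible triples `(a, b, c)`, whatever the size of the coefficients, and all windows
`(A, A + N]`: the set of the arguments `n` in the window with `a n ^ 2 + b n + c` prime has the expected order of
magnitude `N V` if and only if the number of its `k`-term arithmetic progressions with differences up to `D` has
the expected order of magnitude `N D V ^ k`, for all `D` between a power of `log N` and `N`. The constants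
depend only on `k`. The same holds for all sets of arguments at which the polynomial has no prime factor
`≤ N ^ κ` (Szemerédi's theorem relative to these sets, and its converse).
-/

set_option autoImplicit false

open Finset

namespace Pool.Agent.Results.MP_a1177c_nt.UniformProgressions

/-- the value of the polynomial -/
def val (a b c : ℤ) (n : ℕ) : ℤ := a * (n : ℤ) ^ 2 + b * n + c

/-- admissible triples -/
def Admissible (a b c : ℤ) : Prop :=
  0 < a ∧ Int.gcd (Int.gcd a b) c = 1 ∧ ¬ (Even (a + b) ∧ Even c) ∧ ¬ IsSquare (b ^ 2 - 4 * a * c)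

/-- the number of the roots modulo `p` -/
def omega (a b c : ℤ) (p : ℕ) : ℕ := ((range p).filter (fun m => (p : ℤ) ∣ val a b c m)).card

/-- the sieve product over the primes `p ≤ N ^ κ` -/
noncomputable def V (a b c : ℤ) (κ : ℝ) (N : ℕ) : ℝ :=
  ∏ p ∈ (Icc 1 ⌊(N : ℝ) ^ κ⌋₊).filter Nat.Prime, (1 - (omega a b c p : ℝ) / p)

/-- the arguments in `(A, A + N]` whose values are primes (up to the sign) -/
def P (a b c : ℤ) (A N : ℕ) : Finset ℕ := (Ioc A (A + N)).filter (fun n => (val a b c n).natAbs.Prime)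

/-- all prime factors of the value at `n` are larger than `N ^ κ` -/
def Rough (a b c : ℤ) (κ : ℝ) (N n : ℕ) : Prop :=
  ∀ p : ℕ, p.Prime → (p : ℤ) ∣ val a b c n → (N : ℝ) ^ κ < p

open Classical in
/-- The number of the progressions `n, n + d, …, n + (k - 1) d` in `S` with `1 ≤ d ≤ D`. -/
noncomputable def AP (k D : ℕ) (S : Finset ℕ) : ℕ :=
  ((S ×ˢ Icc 1 D).filter (fun q => ∀ j < k, q.1 + j * q.2 ∈ S)).card

theorem adm {a b c : ℤ} (h : Admissible a b c) : Pool.Agent.V11249.NP.Uni.Adm a b c := by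
  obtain ⟨h1, h2, h3, -⟩ := h
  refine ⟨h1, ?_, h3⟩
  rintro p hp ⟨g1, g2, g3⟩
  have g4 : (p : ℤ) ∣ (Int.gcd (Int.gcd a b) c : ℤ) := Int.dvd_coe_gcd (Int.dvd_coe_gcd g1 g2) g3
  rw [h2] at g4
  have g5 : p ∣ 1 := by exact_mod_cast g4
  exact hp.one_lt.ne' (Nat.dvd_one.1 g5)

theorem V_eq (a b c : ℤ) (κ : ℝ) (N : ℕ) : Pool.Agent.V11249.NP.Uni.V a b c κ N = V a b c κ N := by
  unfold V
  unfold Pool.Agent.V11249.NP.Uni.V Pool.Agent.Y843.HS.VV
  apply prod_congr
  · ext q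
    unfold Pool.Agent.Y843.HS.Pr
    rw [mem_filter, mem_filter, mem_Ioc, mem_Icc]
    constructor
    · rintro ⟨⟨a, b⟩, c⟩
      exact ⟨⟨c.pos, b⟩, c⟩
    · rintro ⟨⟨a, b⟩, c⟩
      exact ⟨⟨c.pos, b⟩, c⟩
  · intro q _
    have : (Pool.Agent.V11249.NP.Uni.ZZ a b c q).card = omega a b c q := by
      unfold omega
      congr 1
      ext x
      rw [Pool.Agent.V11249.NP.Uni.mem_ZZ, mem_filter, mem_range]
      rfl
    rw [this]

/-- For every `k ≥ 1`, with constants which do not depend on the admissible triple `(a, b, c)` nor on `A`: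
(1) for `κ > 0` a set `S` of integers of `(A, A + N]` at which the polynomial has no prime factor `≤ N ^ κ`
contains at most `C N D V ^ k` progressions of length `k` with differences at most `D`;
(2) it contains at least `c₀ N D V ^ k` of them if it has at least `δ N V` elements, and it has at least
`c₀ N V` elements if it contains at least `δ N D V ^ k` of them, for all `D` between `log ^ B N` and `N`;
(3), (4) the same for the set `P a b c A N` (with `κ = 1/4` in `V`). -/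
theorem result (k : ℕ) (hk : 1 ≤ k) :
    (∀ κ : ℝ, 0 < κ → ∃ C : ℝ, 0 < C ∧ ∃ B N₀ : ℕ, ∀ a b c : ℤ, Admissible a b c → ∀ N A D : ℕ,
      N₀ ≤ N → Real.log N ^ B ≤ D → ∀ S : Finset ℕ, S ⊆ Ioc A (A + N) → (∀ n ∈ S, Rough a b c κ N n) →
        (AP k D S : ℝ) ≤ C * (N * D * V a b c κ N ^ k)) ∧
    (∀ κ δ : ℝ, 0 < κ → 0 < δ → ∃ c₀ : ℝ, 0 < c₀ ∧ ∃ B N₀ : ℕ, ∀ a b c : ℤ, Admissible a b c →
      ∀ N A D : ℕ, N₀ ≤ N → Real.log N ^ B ≤ D → D ≤ N → ∀ S : Finset ℕ, S ⊆ Ioc A (A + N) →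
        (∀ n ∈ S, Rough a b c κ N n) →
        (δ * (N * V a b c κ N) ≤ S.card → c₀ * (N * D * V a b c κ N ^ k) ≤ AP k D S) ∧
        (δ * (N * D * V a b c κ N ^ k) ≤ AP k D S → c₀ * (N * V a b c κ N) ≤ S.card)) ∧
    (∃ C : ℝ, 0 < C ∧ ∃ B N₀ : ℕ, ∀ a b c : ℤ, Admissible a b c → ∀ N A D : ℕ, N₀ ≤ N →
      Real.log N ^ B ≤ D → (AP k D (P a b c A N) : ℝ) ≤ C * (N * D * V a b c (1 / 4) N ^ k)) ∧
    (∀ δ : ℝ, 0 < δ → ∃ c₀ : ℝ, 0 < c₀ ∧ ∃ B N₀ : ℕ, ∀ a b c : ℤ, Admissible a b c → ∀ N A D : ℕ,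
      N₀ ≤ N → Real.log N ^ B ≤ D → D ≤ N →
      (δ * (N * V a b c (1 / 4) N) ≤ (P a b c A N).card →
        c₀ * (N * D * V a b c (1 / 4) N ^ k) ≤ AP k D (P a b c A N)) ∧
      (δ * (N * D * V a b c (1 / 4) N ^ k) ≤ AP k D (P a b c A N) →
        c₀ * (N * V a b c (1 / 4) N) ≤ (P a b c A N).card)) := by
  refine ⟨?_, ?_, ?_, ?_⟩
  · intro κ hκ
    obtain ⟨C, hC, B, N₀, h⟩ := Pool.Agent.V11249.NP.Uni.up k hk κ hκ
    refine ⟨C, hC, B, N₀, fun a b c hadm N A D hN hD S hS hR => ?_⟩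
    have := h a b c (adm hadm) N A D hN hD S hS hR
    rwa [V_eq] at this
  · intro κ δ hκ hδ
    obtain ⟨c₀, hc, B, N₀, h⟩ := Pool.Agent.V11249.NP.Uni.dn k hk κ δ hκ hδ
    refine ⟨c₀, hc, B, N₀, fun a b c hadm N A D hN hD hDN S hS hR => ?_⟩
    have := h a b c (adm hadm) N A D hN hD hDN S hS hR
    rwa [V_eq] at this
  · obtain ⟨C, hC, B, N₀, h⟩ := Pool.Agent.V11249.NP.Uni.prime_up k hk
    refine ⟨C, hC, B, N₀, fun a b c hadm N A D hN hD => ?_⟩
    have := h a b c (adm hadm) N A D hN hD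
    rwa [V_eq] at this
  · intro δ hδ
    obtain ⟨c₀, hc, B, N₀, h⟩ := Pool.Agent.V11249.NP.Uni.prime_dn k hk δ hδ
    refine ⟨c₀, hc, B, N₀, fun a b c hadm N A D hN hD hDN => ?_⟩
    have := h a b c (adm hadm) N A D hN hD hDN
    rwa [V_eq] at this

end Pool.Agent.Results.MP_a1177c_nt.UniformProgressions
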